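import Pool.Agent.Helper41.Cluster4.Goals

/-!
# Fixed spaces of rotations
-/

namespace Pool.Agent.Helper6.Cluster4

open Module Submodule Pool.Agent.Helper65.Delone Pool.Agent.Helper41.Cluster4
open scoped RealInnerProductSpace

variable {E : Type*} [NormedAddCommGroup E] [InnerProductSpace ℝ E]

/-- the determinant -/
noncomputable def dt (A : E ≃ₗᵢ[ℝ] E) : ℝ := LinearMap.det (A.toLinearEquiv : E →ₗ[ℝ] E)

theorem dt_mul (A B : E ≃ₗᵢ[ℝ] E) : dt (A * B) = dt A * dt B := by
  have h : ((A * B).toLinearEquiv : E →ₗ[ℝ] E) =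
      (A.toLinearEquiv : E →ₗ[ℝ] E) * (B.toLinearEquiv : E →ₗ[ℝ] E) := rfl
  unfold dt
  rw [h, map_mul]

theorem dt_one : dt (1 : E ≃ₗᵢ[ℝ] E) = 1 := by
  have h : ((1 : E ≃ₗᵢ[ℝ] E).toLinearEquiv : E →ₗ[ℝ] E) = 1 := rfl
  unfold dt
  rw [h, map_one]

theorem dt_ne (A : E ≃ₗᵢ[ℝ] E) : dt A ≠ 0 := by
  intro h
  have h1 := dt_mul A A⁻¹
  rw [mul_inv_cancel, dt_one, h, zero_mul] at h1
  exact one_ne_zero h1

open Classical in
theorem dt_refl [FiniteDimensional ℝ E] (v : E) :
    dt ((ℝ ∙ v)ᗮ.reflection) = if v = 0 then 1 else -1 := by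
  have h : dt ((ℝ ∙ v)ᗮ.reflection) = (-1) ^ finrank ℝ (ℝ ∙ v)ᗮᗮ :=
    Submodule.det_reflection _
  rw [h, Submodule.orthogonal_orthogonal]
  split_ifs with h0
  · rw [h0, Submodule.span_zero_singleton, finrank_bot, pow_zero]
  · rw [finrank_span_singleton h0, pow_one]

open Classical in
theorem dt_prod [FiniteDimensional ℝ E] (l : List E) :
    dt ((l.map fun v => (ℝ ∙ v)ᗮ.reflection).prod) = (-1) ^ (l.filter (fun v => v ≠ 0)).length := by
  induction l with
  | nil => simp [dt_one]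
  | cons a l ih =>
    rw [List.map_cons, List.prod_cons, dt_mul, ih, dt_refl]
    by_cases h : a = 0
    · rw [List.filter_cons_of_neg (by simp [h])]; simp [h]
    · rw [List.filter_cons_of_pos (by simp [h])]; simp [h, pow_succ]

theorem prod_fix [FiniteDimensional ℝ E] (l : List E) (w : E) (h : ∀ v ∈ l, ⟪v, w⟫ = 0) :
    (l.map fun v => (ℝ ∙ v)ᗮ.reflection).prod w = w := by
  induction l with
  | nil => rfl
  | cons a l ih =>
    rw [List.map_cons, List.prod_cons]
    have h1 := ih fun v hv => h v (List.mem_cons_of_mem _ hv)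
    change (ℝ ∙ a)ᗮ.reflection ((l.map fun v => (ℝ ∙ v)ᗮ.reflection).prod w) = w
    rw [h1]
    refine reflection_mem_subspace_eq_self ?_
    rw [mem_orthogonal_singleton_iff_inner_right]
    exact h a List.mem_cons_self

open Classical in
theorem dt_eq [FiniteDimensional ℝ E] (A : E ≃ₗᵢ[ℝ] E) :
    dt A = (-1) ^ finrank ℝ (fixSpace A)ᗮ := by
  have hker : (ContinuousLinearMap.id ℝ E - (A : E →L[ℝ] E)).ker = fixSpace A := by
    ext v
    rw [mem_fixSpace]
    change v - A v = 0 ↔ _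
    rw [sub_eq_zero]
    exact eq_comm
  obtain ⟨l, hl, hA⟩ := A.reflections_generate_dim_aux (n := finrank ℝ (fixSpace A)ᗮ)
    (by rw [hker])
  set m := (l.filter (fun v => v ≠ 0)).length with hm
  have h1 : m ≤ l.length := List.length_filter_le _ _
  have h2 : finrank ℝ (fixSpace A)ᗮ ≤ m := by
    set S : Submodule ℝ E := span ℝ ((l.filter (fun v => v ≠ 0)).toFinset : Set E) with hS
    have h3 : Sᗮ ≤ fixSpace A := by
      intro w hw
      rw [mem_fixSpace, hA]
      refine prod_fix l w fun v hv => ?_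
      by_cases h0 : v = 0
      · rw [h0, inner_zero_left]
      · refine (Submodule.mem_orthogonal _ _).1 hw v (subset_span ?_)
        rw [Finset.mem_coe, List.mem_toFinset, List.mem_filter]
        exact ⟨hv, by simp [h0]⟩
    have h4 : (fixSpace A)ᗮ ≤ S := by
      have := Submodule.orthogonal_le h3
      rwa [Submodule.orthogonal_orthogonal] at this
    calc finrank ℝ (fixSpace A)ᗮ ≤ finrank ℝ S := Submodule.finrank_mono h4
      _ ≤ (l.filter (fun v => v ≠ 0)).toFinset.card := finrank_span_finset_le_card _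
      _ ≤ m := List.toFinset_card_le _
  have h5 : m = finrank ℝ (fixSpace A)ᗮ := by omega
  conv_lhs => rw [hA]
  rw [dt_prod, ← hm, h5]

theorem rot_iff (A : E ≃ₗᵢ[ℝ] E) : Rot A ↔ 0 < dt A := Iff.rfl

theorem even_of_rot [FiniteDimensional ℝ E] {A : E ≃ₗᵢ[ℝ] E} (h : Rot A) :
    Even (finrank ℝ (fixSpace A)ᗮ) := by
  rw [rot_iff, dt_eq] at h
  by_contra hcon
  rw [Nat.not_even_iff_odd] at hcon
  rw [hcon.neg_one_pow] at h
  linarith

theorem eq_one_of [FiniteDimensional ℝ E] {A : E ≃ₗᵢ[ℝ] E} (h : finrank ℝ (fixSpace A)ᗮ = 0) :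
    A = 1 := by
  have h1 : fixSpace A = ⊤ := by
    rw [← Submodule.orthogonal_eq_bot_iff]
    exact Submodule.finrank_eq_zero.1 h
  ext v
  have : v ∈ fixSpace A := by rw [h1]; trivial
  exact this

theorem fixFacts [FiniteDimensional ℝ E] : FixFacts E := by
  intro hE
  have hsum : ∀ A : E ≃ₗᵢ[ℝ] E, finrank ℝ (fixSpace A) + finrank ℝ (fixSpace A)ᗮ = 4 := by
    intro A
    rw [(fixSpace A).finrank_add_finrank_orthogonal, hE]
  refine ⟨fun A hA h3 => ?_, fun A hA h1 y hy hyA => ?_, fun G hG => ?_⟩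
  · obtain ⟨j, hj⟩ := even_of_rot hA
    have := hsum A
    exact eq_one_of (by omega)
  · obtain ⟨j, hj⟩ := even_of_rot hA
    have h2 := hsum A
    have h3 : finrank ℝ (fixSpace A)ᗮ ≠ 0 := fun h => h1 (eq_one_of h)
    have h4 : finrank ℝ (fixSpace A) ≠ 0 := by
      intro h
      rw [Submodule.finrank_eq_zero] at h
      have h5 : y ∈ fixSpace A := hyA
      rw [h] at h5
      exact hy ((Submodule.mem_bot ℝ).1 h5)
    omega
  · have hle : rt G ≤ G := fun A hA => hA.1
    have hc : Nat.card ((rt G).subgroupOf G) = Nat.card (rt G) :=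
      Nat.card_congr (Subgroup.subgroupOfEquivOfLe hle).toEquiv
    have hi := Subgroup.card_mul_index ((rt G).subgroupOf G)
    rw [hc] at hi
    by_cases hall : ∀ A ∈ G, Rot A
    · left
      have : rt G = G := le_antisymm hle fun A hA => ⟨hA, hall A hA⟩
      rw [this]
    · right
      push Not at hall
      obtain ⟨A₀, hA₀, hn⟩ := hall
      have hneg : ∀ A : E ≃ₗᵢ[ℝ] E, ¬ Rot A → dt A < 0 := by
        intro A hA
        rw [rot_iff, not_lt] at hA
        exact lt_of_le_of_ne hA (dt_ne A)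
      have h2 : ((rt G).subgroupOf G).index = 2 := by
        rw [Subgroup.index_eq_two_iff]
        refine ⟨⟨A₀, hA₀⟩, fun B => ?_⟩
        rw [Subgroup.mem_subgroupOf, Subgroup.mem_subgroupOf]
        change Xor ((B : E ≃ₗᵢ[ℝ] E) * A₀ ∈ rt G) ((B : E ≃ₗᵢ[ℝ] E) ∈ rt G)
        rw [mem_rt, mem_rt]
        by_cases hB : Rot (B : E ≃ₗᵢ[ℝ] E)
        · right
          refine ⟨⟨B.2, hB⟩, fun h => ?_⟩
          have h3 := h.2
          rw [rot_iff, dt_mul] at h3
          rw [rot_iff] at hB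
          nlinarith [hneg A₀ hn]
        · left
          refine ⟨⟨G.mul_mem B.2 hA₀, ?_⟩, fun h => hB h.2⟩
          rw [rot_iff, dt_mul]
          exact mul_pos_of_neg_of_neg (hneg _ hB) (hneg _ hn)
      rw [h2] at hi
      omega

end Pool.Agent.Helper6.Cluster4
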